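import Pool.Agent.HAS82.Basic
import Pool.Agent.Helper58.PLine.Basic

/-!
# Theorem REL (note 3277 of helper70), set valued: the set up and the counting lemmas

`S` is a finite linked structure with `-1 = 1`, `a` a symbol, `D` the elements annihilated by some
slot of `a`, `R` the elements of `D` which are no slots of `a`.
-/

set_option autoImplicit false
set_option linter.unusedSectionVars false

namespace Pool.Agent.REL34

open Pool.Agent.Helper58.PLine (QData)
open Pool.Agent.HAS82 (ind ind_and natCard_eq card_mul card_mono)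
open scoped Classical
open Finset

/-! ### Rules for sums -/

section rules
variable {V Q : Type} [AddCommGroup V] [Module (ZMod 2) V] {S : QData V Q}

theorem ss (x : V) : x + x = 0 := ZModModule.add_self x

theorem xxy (x y : V) : x + (x + y) = y := by rw [← add_assoc, ss, zero_add]

theorem xyy (x y : V) : x + y + y = x := by rw [add_assoc, ss, add_zero]

variable {v v' w w' : V} {c : Q}

/-- value + value = zero (right) -/
theorem rc (h : S.q v w = c) (h' : S.q v w' = c) : S.q v (w + w') = S.z :=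
  (S.add v w w').1 (h.trans h'.symm)

/-- value + zero = value (right) -/
theorem r0 (h : S.q v w = c) (h' : S.q v w' = S.z) : S.q v (w + w') = c := by
  rw [← h, S.add, add_comm, xxy, h']

/-- value + value = zero (left) -/
theorem lc (h : S.q v w = c) (h' : S.q v' w = c) : S.q (v + v') w = S.z := by
  rw [S.symm] at h h' ⊢
  exact rc h h'

/-- value + zero = value (left) -/
theorem l0 (h : S.q v w = c) (h' : S.q v' w = S.z) : S.q (v + v') w = c := by
  rw [S.symm] at h h' ⊢
  exact r0 h h'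

theorem ladd (v v' w : V) : S.q v w = S.q v' w ↔ S.q (v + v') w = S.z := by
  rw [S.symm v, S.symm v', S.symm (v + v')]
  exact S.add w v v'

theorem q0 (v : V) : S.q v 0 = S.z := by
  have := (S.add v 0 0).1 rfl
  rwa [add_zero] at this

theorem zq (v : V) : S.q 0 v = S.z := by rw [S.symm, q0]

/-- `s` is a slot of `a` -/
def Sl (S : QData V Q) (a : Q) (s : V) : Prop := ∃ w, S.q s w = a

/-- linkage at `a` -/
theorem lk {a : Q} {s t : V} (hs : Sl S a s) (ht : Sl S a t) : ∃ w, S.q s w = a ∧ S.q t w = a := by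
  obtain ⟨x, hx⟩ := hs
  obtain ⟨y, hy⟩ := ht
  obtain ⟨w, h1, h2⟩ := S.link s x t y (hx.trans hy.symm)
  exact ⟨w, by rw [← h1, hx], by rw [← h2, hy]⟩

theorem Sl.co {a : Q} {s w : V} (h : S.q s w = a) : Sl S a w := ⟨s, by rw [S.symm, h]⟩

/-- the elements annihilated by a slot of `a` form a group -/
theorem dd_add {a : Q} {t v : V} (ht : ∃ s, Sl S a s ∧ S.q s t = S.z)
    (hv : ∃ s, Sl S a s ∧ S.q s v = S.z) : ∃ s, Sl S a s ∧ S.q s (t + v) = S.z := by
  obtain ⟨s, hs, h1⟩ := ht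
  obtain ⟨x, hx, h2⟩ := hv
  obtain ⟨y, e1, e2⟩ := lk hs hx
  have f1 : S.q s (y + t) = a := r0 e1 h1
  have f2 : S.q x (y + v) = a := r0 e2 h2
  obtain ⟨g, g1, g2⟩ := lk (Sl.co f1) (Sl.co f2)
  refine ⟨g, Sl.co g1, ?_⟩
  have h3 : S.q g ((y + t) + (y + v)) = S.z := rc (by rw [S.symm, g1]) (by rw [S.symm, g2])
  have h4 : (y + t) + (y + v) = t + v := by
    rw [show (y + t) + (y + v) = y + (y + (t + v)) by abel, xxy]
  rwa [h4] at h3

/-- the group of all elements annihilated by a slot of `a` -/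
def DD (S : QData V Q) (a : Q) (h : ∃ s, Sl S a s) : Submodule (ZMod 2) V where
  carrier := {t | ∃ s, Sl S a s ∧ S.q s t = S.z}
  add_mem' := dd_add
  zero_mem' := by
    obtain ⟨s, hs⟩ := h
    exact ⟨s, hs, q0 s⟩
  smul_mem' := by
    rintro c t ⟨s, hs, h1⟩
    refine ⟨s, hs, ?_⟩
    have : c = 0 ∨ c = 1 := by revert c; decide
    rcases this with rfl | rfl
    · rw [zero_smul]; exact q0 s
    · rw [one_smul]; exact h1

/-- the hypotheses of Theorem REL -/
structure Hy (S : QData V Q) (a : Q) (D R : Submodule (ZMod 2) V) : Prop where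
  he : S.e = 0
  sl : ∃ s, Sl S a s
  az : a ≠ S.z
  dm : ∀ t, t ∈ D ↔ ∃ s, Sl S a s ∧ S.q s t = S.z
  rm : ∀ t, t ∈ R ↔ t ∈ D ∧ ¬ Sl S a t

variable {a : Q} {D R : Submodule (ZMod 2) V}

theorem Hy.self (H : Hy S a D R) (s : V) : S.q s s = S.z := by
  have := S.diag s
  rwa [H.he, add_zero] at this

theorem Hy.sD (H : Hy S a D R) {s : V} (h : Sl S a s) : s ∈ D := (H.dm s).2 ⟨s, h, H.self s⟩

theorem Hy.aD (H : Hy S a D R) {s t : V} (h : Sl S a s) (ht : S.q s t = S.z) : t ∈ D :=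
  (H.dm t).2 ⟨s, h, ht⟩

theorem Hy.rD (H : Hy S a D R) {r : V} (h : r ∈ R) : r ∈ D := ((H.rm r).1 h).1

theorem Hy.nr (H : Hy S a D R) {s : V} (h : Sl S a s) : s ∉ R := fun hr => ((H.rm s).1 hr).2 h

theorem Hy.sl_of (H : Hy S a D R) {s : V} (h : s ∈ D) (h' : s ∉ R) : Sl S a s := by
  by_contra hc
  exact h' ((H.rm s).2 ⟨h, hc⟩)

theorem Hy.sl_iff (H : Hy S a D R) {s : V} : Sl S a s ↔ s ∈ D ∧ s ∉ R :=
  ⟨fun h => ⟨H.sD h, H.nr h⟩, fun h => H.sl_of h.1 h.2⟩

theorem Hy.sl_add (H : Hy S a D R) {s r : V} (h : Sl S a s) (hr : r ∈ R) : Sl S a (s + r) := by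
  refine H.sl_of (D.add_mem (H.sD h) (H.rD hr)) fun h' => H.nr h ?_
  have := R.add_mem h' hr
  rwa [xyy] at this

theorem Hy.le (H : Hy S a D R) : R ≤ D := fun _ h => H.rD h

end rules

/-! ### Counting -/

section count
variable {V : Type} [AddCommGroup V] [Module (ZMod 2) V] [Fintype V]

/-- pair by pair shifting -/
theorem shiftG (P P' : V → V → V → Prop) (h : ∀ v w, ∃ t0, ∀ t, P t v w ↔ P' (t + t0) v w) :
    ∑ t : V, ∑ v : V, ∑ w : V, ind (P t v w) = ∑ t : V, ∑ v : V, ∑ w : V, ind (P' t v w) := by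
  rw [Finset.sum_comm]
  conv_rhs => rw [Finset.sum_comm]
  refine Finset.sum_congr rfl fun v _ => ?_
  rw [Finset.sum_comm]
  conv_rhs => rw [Finset.sum_comm]
  refine Finset.sum_congr rfl fun w _ => ?_
  obtain ⟨t0, ht⟩ := h v w
  refine Fintype.sum_equiv (Equiv.addRight t0) _ _ fun t => ?_
  show ind _ = ind (P' (t + t0) v w)
  rw [propext (ht t)]

theorem ind_mul_sum (p : V → Prop) (r : V → Prop) :
    (∑ v : V, ind (p v)) * (∑ w : V, ind (r w)) = ∑ v : V, ∑ w : V, ind (p v ∧ r w) := by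
  rw [Finset.sum_mul_sum]
  refine Finset.sum_congr rfl fun v _ => Finset.sum_congr rfl fun w _ => ?_
  rw [← ind_and]

theorem ind_le {p r : Prop} (h : p → r) : ind p ≤ ind r := by
  unfold ind
  by_cases hp : p
  · rw [if_pos hp, if_pos (h hp)]
  · rw [if_neg hp]
    exact Nat.zero_le _

theorem cm_le (K1 K2 : Submodule (ZMod 2) V) (E : V → Prop) (hE : ∀ v ∈ K1 ⊔ K2, E v) :
    Nat.card K1 * Nat.card K2 ≤
      (∑ v : V, ind (E v)) * Nat.card (K1 ⊓ K2 : Submodule (ZMod 2) V) := by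
  rw [card_mul]
  refine Nat.mul_le_mul_right _ ?_
  rw [natCard_eq]
  exact Finset.sum_le_sum fun v _ => ind_le (hE v)

theorem cm_iff (K1 K2 : Submodule (ZMod 2) V) (E : V → Prop) (hE : ∀ v ∈ K1 ⊔ K2, E v) :
    Nat.card K1 * Nat.card K2 =
      (∑ v : V, ind (E v)) * Nat.card (K1 ⊓ K2 : Submodule (ZMod 2) V) ↔
      ∀ v, E v → v ∈ K1 ⊔ K2 := by
  have hpos : 0 < Nat.card (K1 ⊓ K2 : Submodule (ZMod 2) V) := Nat.card_pos
  rw [card_mul]
  constructor
  · intro h v hv
    have h1 := Nat.eq_of_mul_eq_mul_right hpos h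
    rw [natCard_eq, Finset.sum_eq_sum_iff_of_le fun v _ => ind_le (hE v)] at h1
    have h2 := h1 v (Finset.mem_univ _)
    by_contra hc
    unfold ind at h2
    rw [if_neg hc, if_pos hv] at h2
    omega
  · intro h
    congr 1
    rw [natCard_eq]
    refine Finset.sum_congr rfl fun v _ => ?_
    congr 1
    exact propext ⟨hE v, h v⟩

theorem card_dA (K : Submodule (ZMod 2) V) :
    Nat.card K.dualAnnihilator * Nat.card K = Nat.card V := by
  rw [Module.natCard_eq_pow_finrank (K := ZMod 2) (V := K),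
    Module.natCard_eq_pow_finrank (K := ZMod 2) (V := V),
    Module.natCard_eq_pow_finrank (K := ZMod 2) (V := K.dualAnnihilator), ← pow_add,
    add_comm, Subspace.finrank_add_finrank_dualAnnihilator_eq]

end count

end Pool.Agent.REL34
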