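import Pool.Agent.REL34.Step6
import Pool.Agent.HAS53.Sub

/-!
# Theorem REL (note 3277 of helper70), set valued: steps (7), (8)
-/

set_option autoImplicit false
set_option linter.unusedSectionVars false
set_option linter.unusedVariables false

namespace Pool.Agent.REL34

open Pool.Agent.Helper58.PLine (QData zm zm_ne_zero exists_functional)
open Pool.Agent.HAS82 (ind ind_and natCard_eq card_mul card_mono)
open scoped Classical
open Finset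

variable {V Q : Type} [AddCommGroup V] [Module (ZMod 2) V] [Fintype V] {S : QData V Q} {a : Q}
  {D R : Submodule (ZMod 2) V} {l : V →ₗ[ZMod 2] ZMod 2} {q : ℕ}

/-- `w ∈ R` has a common value with `u` via `R` -/
def E7 (S : QData V Q) (R : Submodule (ZMod 2) V) (t u w : V) : Prop :=
  w ∈ R ∧ ∃ r ∈ R, S.q w t = S.q r u

theorem sup7 (t u : V) : ∀ w ∈ (R ⊓ S.ann t) ⊔ (R ⊓ S.ann (t + u)), E7 S R t u w := by
  intro w hw
  obtain ⟨x, hx, y, hy, rfl⟩ := Submodule.mem_sup.1 hw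
  refine ⟨R.add_mem hx.1 hy.1, y, hy.1, ?_⟩
  have h1 : S.q t x = S.z := hx.2
  have h2 : S.q (t + u) y = S.z := hy.2
  rw [← ladd] at h2
  rw [add_comm, S.symm, S.symm y u, ← h2]
  exact r0 rfl h1

/-- slots are linked via `R` with the elements of `R` -/
theorem Hy.link7 (H : Hy S a D R) {s u : V} (hs : Sl S a s) (hu : u ∈ R) {w : V}
    (h : E7 S R s u w) : w ∈ (R ⊓ S.ann s) ⊔ (R ⊓ S.ann (s + u)) := by
  obtain ⟨hw, r, hr, h1⟩ := h
  obtain ⟨x, h2, h3⟩ := S.link s w u r (by rw [S.symm s, S.symm u, h1])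
  have h4 : x + w ∈ S.ann s ⊔ R := Submodule.mem_sup_left (rc h2.symm rfl)
  rw [← H.six hs hu] at h4
  obtain ⟨y, ⟨hy1, hy2⟩, r', hr', h5⟩ := Submodule.mem_sup.1 h4
  have h6 : x + y = w + r' := by
    have : x = y + r' + w := by rw [h5, xyy]
    rw [this, show y + r' + w + y = w + r' + (y + y) by abel, ss, add_zero]
  have h7 : x + y ∈ R := by
    rw [h6]
    exact R.add_mem hw hr'
  have h8 : S.q s (x + y) = S.q s w := by
    rw [h2]
    exact r0 rfl hy1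
  have h9 : S.q u (x + y) = S.q u r := by
    rw [h3]
    exact r0 rfl hy2
  have : w = (w + (x + y)) + (x + y) := by rw [xyy]
  rw [this]
  refine Submodule.add_mem_sup ⟨R.add_mem hw h7, ?_⟩ ⟨h7, ?_⟩
  · exact rc rfl h8
  · show S.q (s + u) (x + y) = S.z
    rw [← ladd, h8, h9, S.symm s, S.symm u, h1]

/-- step (7) of Theorem REL -/
theorem Hy.seven (H : Hy S a D R) {t u w : V} (ht : t ∈ R) (hu : u ∈ R) (h : E7 S R t u w) :
    w ∈ (R ⊓ S.ann t) ⊔ (R ⊓ S.ann (t + u)) := by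
  obtain ⟨s1, hs1⟩ := H.sl
  have key : ∀ t : V, Nat.card (R ⊓ S.ann t : Submodule (ZMod 2) V) *
      Nat.card (R ⊓ S.ann (t + u) : Submodule (ZMod 2) V) ≤ (∑ w : V, ind (E7 S R t u w)) *
      Nat.card ((R ⊓ S.ann t) ⊓ (R ⊓ S.ann (t + u)) : Submodule (ZMod 2) V) :=
    fun t => cm_le _ _ _ (sup7 t u)
  have hL : ∀ c : V, ∑ t : V, ind (t ∈ R) * (Nat.card (R ⊓ S.ann (t + c) : Submodule (ZMod 2) V) *
      Nat.card (R ⊓ S.ann (t + c + u) : Submodule (ZMod 2) V)) = ∑ t : V, ∑ v : V, ∑ w : V,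
      ind (t ∈ R ∧ v ∈ R ⊓ S.ann (t + c) ∧ w ∈ R ⊓ S.ann (t + c + u)) := by
    intro c
    refine Finset.sum_congr rfl fun t _ => ?_
    rw [natCard_eq, natCard_eq, ind_mul_sum, Finset.mul_sum]
    refine Finset.sum_congr rfl fun v _ => ?_
    rw [Finset.mul_sum]
    refine Finset.sum_congr rfl fun w _ => ?_
    rw [← ind_and]
  have hR : ∀ c : V, ∑ t : V, ind (t ∈ R) * ((∑ w : V, ind (E7 S R (t + c) u w)) *
      Nat.card ((R ⊓ S.ann (t + c)) ⊓ (R ⊓ S.ann (t + c + u)) : Submodule (ZMod 2) V)) =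
      ∑ t : V, ∑ v : V, ∑ w : V, ind (t ∈ R ∧ E7 S R (t + c) u v ∧
        w ∈ (R ⊓ S.ann (t + c)) ⊓ (R ⊓ S.ann (t + c + u))) := by
    intro c
    refine Finset.sum_congr rfl fun t _ => ?_
    rw [natCard_eq, ind_mul_sum, Finset.mul_sum]
    refine Finset.sum_congr rfl fun v _ => ?_
    rw [Finset.mul_sum]
    refine Finset.sum_congr rfl fun w _ => ?_
    rw [← ind_and]
  -- shifting
  have sh : ∀ v w : V, v ∈ R → w ∈ R → ∃ ρ ∈ R, ∀ t : V,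
      S.q (t + s1) v = S.q (t + ρ + 0) v ∧ S.q (t + s1) w = S.q (t + ρ + 0) w ∧
      S.q (t + s1 + u) w = S.q (t + ρ + 0 + u) w := by
    intro v w hv hw
    have h1 : s1 ∈ W S D v w ⊔ R := by
      rw [H.five hv hw]
      exact H.sD hs1
    obtain ⟨x, hx, ρ, hρ, h2⟩ := Submodule.mem_sup.1 h1
    have hx1 : S.q x v = S.z := by rw [S.symm]; exact hx.2.1
    have hx2 : S.q x w = S.z := by rw [S.symm]; exact hx.2.2
    refine ⟨ρ, hρ, fun t => ⟨?_, ?_, ?_⟩⟩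
    · rw [← h2, add_zero, show t + (x + ρ) = (t + ρ) + x by abel]
      exact l0 rfl hx1
    · rw [← h2, add_zero, show t + (x + ρ) = (t + ρ) + x by abel]
      exact l0 rfl hx2
    · rw [← h2, add_zero, show t + (x + ρ) + u = (t + ρ + u) + x by abel]
      exact l0 rfl hx2
  have e1 : ∑ t : V, ∑ v : V, ∑ w : V,
      ind (t ∈ R ∧ v ∈ R ⊓ S.ann (t + s1) ∧ w ∈ R ⊓ S.ann (t + s1 + u)) =
      ∑ t : V, ∑ v : V, ∑ w : V,
      ind (t ∈ R ∧ v ∈ R ⊓ S.ann (t + 0) ∧ w ∈ R ⊓ S.ann (t + 0 + u)) := by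
    refine shiftG _ _ fun v w => ?_
    by_cases hvw : v ∈ R ∧ w ∈ R
    · obtain ⟨ρ, hρ, h1⟩ := sh v w hvw.1 hvw.2
      refine ⟨ρ, fun t => ?_⟩
      obtain ⟨h2, h3, h4⟩ := h1 t
      have m1 : v ∈ R ⊓ S.ann (t + s1) ↔ v ∈ R ⊓ S.ann (t + ρ + 0) := by
        show v ∈ R ∧ S.q (t + s1) v = S.z ↔ v ∈ R ∧ S.q (t + ρ + 0) v = S.z
        rw [h2]
      have m2 : w ∈ R ⊓ S.ann (t + s1 + u) ↔ w ∈ R ⊓ S.ann (t + ρ + 0 + u) := by
        show w ∈ R ∧ S.q (t + s1 + u) w = S.z ↔ w ∈ R ∧ S.q (t + ρ + 0 + u) w = S.z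
        rw [h4]
      rw [m1, m2, R.add_mem_iff_left hρ]
    · refine ⟨0, fun t => ?_⟩
      constructor
      · rintro ⟨-, h1, h2⟩
        exact absurd ⟨h1.1, h2.1⟩ hvw
      · rintro ⟨-, h1, h2⟩
        exact absurd ⟨h1.1, h2.1⟩ hvw
  have e2 : ∑ t : V, ∑ v : V, ∑ w : V, ind (t ∈ R ∧ E7 S R (t + s1) u v ∧
        w ∈ (R ⊓ S.ann (t + s1)) ⊓ (R ⊓ S.ann (t + s1 + u))) =
      ∑ t : V, ∑ v : V, ∑ w : V, ind (t ∈ R ∧ E7 S R (t + 0) u v ∧
        w ∈ (R ⊓ S.ann (t + 0)) ⊓ (R ⊓ S.ann (t + 0 + u))) := by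
    refine shiftG _ _ fun v w => ?_
    by_cases hvw : v ∈ R ∧ w ∈ R
    · obtain ⟨ρ, hρ, h1⟩ := sh v w hvw.1 hvw.2
      refine ⟨ρ, fun t => ?_⟩
      obtain ⟨h2, h3, h4⟩ := h1 t
      have m1 : E7 S R (t + s1) u v ↔ E7 S R (t + ρ + 0) u v := by
        unfold E7
        rw [S.symm v (t + s1), h2, S.symm v]
      have m2 : w ∈ (R ⊓ S.ann (t + s1)) ⊓ (R ⊓ S.ann (t + s1 + u)) ↔
          w ∈ (R ⊓ S.ann (t + ρ + 0)) ⊓ (R ⊓ S.ann (t + ρ + 0 + u)) := by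
        show (w ∈ R ∧ S.q (t + s1) w = S.z) ∧ (w ∈ R ∧ S.q (t + s1 + u) w = S.z) ↔
          (w ∈ R ∧ S.q (t + ρ + 0) w = S.z) ∧ (w ∈ R ∧ S.q (t + ρ + 0 + u) w = S.z)
        rw [h3, h4]
      rw [m1, m2, R.add_mem_iff_left hρ]
    · refine ⟨0, fun t => ?_⟩
      constructor
      · rintro ⟨-, h1, h2⟩
        exact absurd ⟨h1.1, h2.1.1⟩ hvw
      · rintro ⟨-, h1, h2⟩
        exact absurd ⟨h1.1, h2.1.1⟩ hvw
  have e3 : ∑ t : V, ind (t ∈ R) * (Nat.card (R ⊓ S.ann (t + s1) : Submodule (ZMod 2) V) *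
      Nat.card (R ⊓ S.ann (t + s1 + u) : Submodule (ZMod 2) V)) =
      ∑ t : V, ind (t ∈ R) * ((∑ w : V, ind (E7 S R (t + s1) u w)) *
      Nat.card ((R ⊓ S.ann (t + s1)) ⊓ (R ⊓ S.ann (t + s1 + u)) : Submodule (ZMod 2) V)) := by
    refine Finset.sum_congr rfl fun t _ => ?_
    by_cases h1 : t ∈ R
    · congr 1
      rw [cm_iff _ _ _ (sup7 (t + s1) u)]
      have h2 : Sl S a (t + s1) := by
        rw [add_comm]
        exact H.sl_add hs1 h1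
      exact fun w hw => H.link7 h2 hu hw
    · rw [ind_neg h1, zero_mul, zero_mul]
  rw [hL s1, hR s1, e1, e2, ← hL 0, ← hR 0] at e3
  have e4 := (Finset.sum_eq_sum_iff_of_le fun t _ => Nat.mul_le_mul_left _ (key (t + 0))).1 e3 t
    (Finset.mem_univ _)
  rw [ind_pos ht, one_mul, one_mul, add_zero, cm_iff _ _ _ (sup7 t u)] at e4
  exact e4 w h

/-- `R` is linked via itself -/
theorem Hy.linkR (H : Hy S a D R) : ∀ x ∈ R, ∀ b ∈ R, ∀ c ∈ R, ∀ d ∈ R, S.q x b = S.q c d →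
      ∃ y ∈ R, S.q x b = S.q x y ∧ S.q c d = S.q c y := by
  intro t ht w hw u hu r hr h
  have h1 : E7 S R t u w := ⟨hw, r, hr, by rw [S.symm w, h, S.symm]⟩
  obtain ⟨y, hy, x, hx, h2⟩ := Submodule.mem_sup.1 (H.seven ht hu h1)
  have h3 : S.q t y = S.z := hy.2
  have h4 : S.q (t + u) x = S.z := hx.2
  rw [← ladd] at h4
  have h5 : S.q t w = S.q t x := by
    rw [← h2, add_comm]
    exact r0 rfl h3
  exact ⟨x, hx.1, h5, by rw [← h, h5, h4]⟩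

/-- **Theorem REL** (note 3277 of helper70), set valued: if the elements of `D` which are no slots
of `a` form a subgroup `R`, some slot `s` of `a` annihilates `R` and has index two in `D` -/
theorem Hy.rel (H : Hy S a D R) : ∃ s w, S.q s w = a ∧ (∀ r ∈ R, S.q s r = S.z) ∧
    ∀ v ∈ D, S.q s v = S.z ∨ S.q s (v + w) = S.z := by
  obtain ⟨s1, hs1⟩ := H.sl
  obtain ⟨ρ, hρ, h1⟩ := Pool.Agent.HAS53.hasse_sub R H.linkR s1 (by
    intro r hr
    have h1 : s1 ∈ W S D r r ⊔ R := by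
      rw [H.five hr hr]
      exact H.sD hs1
    obtain ⟨x, hx, ρ, hρ, h2⟩ := Submodule.mem_sup.1 h1
    refine ⟨ρ, hρ, ?_⟩
    rw [← h2, add_comm]
    exact (r0 rfl hx.2.1).symm)
  have hs : Sl S a (s1 + ρ) := H.sl_add hs1 hρ
  have h2 : ∀ r ∈ R, S.q (s1 + ρ) r = S.z := by
    intro r hr
    rw [← ladd, S.symm s1, S.symm ρ, h1 r hr]
  obtain ⟨w, hw⟩ := hs
  refine ⟨s1 + ρ, w, hw, h2, fun v hv => ?_⟩
  have h3 : S.ann (s1 + ρ) ⊔ R = S.ann (s1 + ρ) := sup_eq_left.2 fun r hr => h2 r hr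
  have h4 := H.two hw hv
  rw [h3] at h4
  exact h4

end Pool.Agent.REL34
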