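import Pool.Agent.REL34.Basic

/-!
# Theorem REL, steps (1) and (2)
-/

set_option autoImplicit false
set_option linter.unusedSectionVars false

namespace Pool.Agent.REL34

open Pool.Agent.Helper58.PLine (QData zm zm_ne_zero exists_functional)
open Pool.Agent.HAS82 (ind ind_and natCard_eq card_mul card_mono)
open scoped Classical
open Finset

variable {V Q : Type} [AddCommGroup V] [Module (ZMod 2) V] {S : QData V Q} {a : Q}
  {D R : Submodule (ZMod 2) V} {l : V →ₗ[ZMod 2] ZMod 2}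

/-- the value at `v` of the map which is `a` where `l = 1` and zero where `l = 0` -/
noncomputable def val (S : QData V Q) (a : Q) (l : V →ₗ[ZMod 2] ZMod 2) (v : V) : Q :=
  if l v = 0 then S.z else a

theorem val_add {v w t : V} (h : S.q v t = val S a l v) (h' : S.q w t = val S a l w) :
    S.q (v + w) t = val S a l (v + w) := by
  unfold val at *
  rw [map_add]
  rcases zm (l v) with e | e <;> rcases zm (l w) with e' | e' <;> rw [e] at h <;>
    rw [e'] at h' <;> rw [e, e']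
  · simp at h h' ⊢
    exact l0 h h'
  · simp at h h' ⊢
    rw [add_comm]
    exact l0 h' h
  · simp at h h' ⊢
    exact l0 h h'
  · simp at h h'
    rw [ss, if_pos rfl]
    exact lc h h'

theorem val_zero (v : V) : val S a 0 v = S.z := by
  unfold val
  rw [LinearMap.zero_apply, if_pos rfl]

theorem val_of0 {v : V} (h : l v = 0) : val S a l v = S.z := by
  unfold val
  rw [if_pos h]

theorem val_of1 {v : V} (h : l v ≠ 0) : val S a l v = a := by
  unfold val
  rw [if_neg h]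

/-- the kernel of the sum of the map of `l` and the inner map of `t` -/
def KK (S : QData V Q) (a : Q) (D : Submodule (ZMod 2) V) (l : V →ₗ[ZMod 2] ZMod 2) (t : V) :
    Submodule (ZMod 2) V where
  carrier := {v | v ∈ D ∧ S.q v t = val S a l v}
  add_mem' := fun h h' => ⟨D.add_mem h.1 h'.1, val_add h.2 h'.2⟩
  zero_mem' := ⟨D.zero_mem, by rw [zq, val_of0 (map_zero l)]⟩
  smul_mem' := by
    rintro c t ⟨h1, h2⟩
    rcases zm c with rfl | rfl
    · rw [zero_smul]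
      exact ⟨D.zero_mem, by rw [zq, val_of0 (map_zero l)]⟩
    · rw [one_smul]
      exact ⟨h1, h2⟩

theorem mem_KK {v t : V} : v ∈ KK S a D l t ↔ v ∈ D ∧ S.q v t = val S a l v := Iff.rfl

theorem Hy.sl_l (H : Hy S a D R) (hl : ∀ r ∈ R, l r = 0) {v : V} (hv : v ∈ D) (h : l v ≠ 0) :
    Sl S a v := H.sl_of hv fun h' => h (hl v h')

theorem Hy.plane' (H : Hy S a D R) (hl : ∀ r ∈ R, l r = 0) {v w : V} (hv : v ∈ D) (hw : w ∈ D) :
    ∃ t0, S.q v t0 = val S a l v ∧ S.q w t0 = val S a l w := by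
  by_cases e : l v = 0 <;> by_cases e' : l w = 0
  · exact ⟨0, by rw [q0, val_of0 e], by rw [q0, val_of0 e']⟩
  · have h1 : l (v + w) ≠ 0 := by rw [map_add, e, zero_add]; exact e'
    obtain ⟨t, h2, h3⟩ := lk (H.sl_l hl hw e') (H.sl_l hl (D.add_mem hv hw) h1)
    refine ⟨t, ?_, by rw [val_of1 e', h2]⟩
    have h4 := lc h2 h3
    rw [add_comm v, xxy] at h4
    rw [h4, val_of0 e]
  · have h1 : l (v + w) ≠ 0 := by rw [map_add, e', add_zero]; exact e
    obtain ⟨t, h2, h3⟩ := lk (H.sl_l hl hv e) (H.sl_l hl (D.add_mem hv hw) h1)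
    refine ⟨t, by rw [val_of1 e, h2], ?_⟩
    have h4 := lc h2 h3
    rw [xxy] at h4
    rw [h4, val_of0 e']
  · obtain ⟨t, h2, h3⟩ := lk (H.sl_l hl hv e) (H.sl_l hl hw e')
    exact ⟨t, by rw [val_of1 e, h2], by rw [val_of1 e', h3]⟩

theorem Hy.plane (H : Hy S a D R) (hl : ∀ r ∈ R, l r = 0) (v w : V) :
    ∃ t0, (v ∈ D → S.q v t0 = val S a l v) ∧ (w ∈ D → S.q w t0 = val S a l w) := by
  by_cases hv : v ∈ D <;> by_cases hw : w ∈ D
  · obtain ⟨t, h1, h2⟩ := H.plane' hl hv hw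
    exact ⟨t, fun _ => h1, fun _ => h2⟩
  · obtain ⟨t, h1, -⟩ := H.plane' hl hv hv
    exact ⟨t, fun _ => h1, fun h => absurd h hw⟩
  · obtain ⟨t, h1, -⟩ := H.plane' hl hw hw
    exact ⟨t, fun h => absurd h hv, fun _ => h1⟩
  · exact ⟨0, fun h => absurd h hv, fun h => absurd h hw⟩

theorem sh1 {v t0 : V} (h : v ∈ D → S.q v t0 = val S a l v) (t : V) :
    v ∈ KK S a D l t ↔ v ∈ KK S a D 0 (t + t0) := by
  rw [mem_KK, mem_KK, val_zero]
  refine and_congr_right fun hv => ?_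
  rw [← h hv, S.add]

/-- `v` has a value of `u` at the sum of the map of `l` and the inner map of `t` -/
def PE (S : QData V Q) (a : Q) (D : Submodule (ZMod 2) V) (l : V →ₗ[ZMod 2] ZMod 2) (u t v : V) :
    Prop :=
  v ∈ D ∧ ∃ t0, S.q v t0 = val S a l v ∧ ∃ v' ∈ D, S.q v (t0 + t) = S.q v' u

theorem sh2 {u v t0 : V} (h : v ∈ D → S.q v t0 = val S a l v) (t : V) :
    PE S a D l u t v ↔ PE S a D 0 u (t + t0) v := by
  unfold PE
  refine and_congr_right fun hv => ?_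
  constructor
  · rintro ⟨t1, h1, v', hv', h2⟩
    refine ⟨t1 + t0, ?_, v', hv', ?_⟩
    · rw [val_zero]
      exact rc h1 (h hv)
    · rw [show t1 + t0 + (t + t0) = t1 + t + t0 + t0 by abel, xyy]
      exact h2
  · rintro ⟨t1, h1, v', hv', h2⟩
    rw [val_zero] at h1
    refine ⟨t1 + t0, ?_, v', hv', ?_⟩
    · rw [add_comm]
      exact r0 (h hv) h1
    · rw [show t1 + t0 + t = t1 + (t + t0) by abel]
      exact h2

theorem Hy.sup_le (H : Hy S a D R) (hl : ∀ r ∈ R, l r = 0) (u t : V) :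
    ∀ v ∈ KK S a D l t ⊔ KK S a D l (t + u), PE S a D l u t v := by
  intro v hv
  obtain ⟨x, hx, y, hy, rfl⟩ := Submodule.mem_sup.1 hv
  obtain ⟨t0, h1, h2⟩ := H.plane' hl hx.1 hy.1
  refine ⟨D.add_mem hx.1 hy.1, t0, val_add h1 h2, y, hy.1, ?_⟩
  have h3 : S.q x (t0 + t) = S.z := rc h1 hx.2
  have h4 : S.q y (t0 + (t + u)) = S.z := rc h2 hy.2
  rw [← add_assoc, ← S.add] at h4
  rw [add_comm]
  exact l0 h4 h3

/-- step (1) of Theorem REL -/
theorem Hy.one [Fintype V] (H : Hy S a D R) (hl : ∀ r ∈ R, l r = 0) {v0 : V} (hv0 : v0 ∈ D)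
    (hlv : l v0 ≠ 0) {u : V} (hu : Sl S a u) : ∃ w, S.q u w = a ∧ l w ≠ 0 := by
  have hs : ∀ l' : V →ₗ[ZMod 2] ZMod 2, ∑ t : V, Nat.card (KK S a D l' t) *
      Nat.card (KK S a D l' (t + u)) = ∑ t : V, ∑ v : V, ∑ w : V,
      ind (v ∈ KK S a D l' t ∧ w ∈ KK S a D l' (t + u)) := by
    intro l'
    refine Finset.sum_congr rfl fun t _ => ?_
    rw [natCard_eq, natCard_eq, ind_mul_sum]
  have hr : ∀ l' : V →ₗ[ZMod 2] ZMod 2, ∑ t : V, (∑ v : V, ind (PE S a D l' u t v)) *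
      Nat.card (KK S a D l' t ⊓ KK S a D l' (t + u) : Submodule (ZMod 2) V) =
      ∑ t : V, ∑ v : V, ∑ w : V,
      ind (PE S a D l' u t v ∧ w ∈ KK S a D l' t ⊓ KK S a D l' (t + u)) := by
    intro l'
    refine Finset.sum_congr rfl fun t _ => ?_
    rw [natCard_eq, ind_mul_sum]
  have e1 : ∑ t : V, Nat.card (KK S a D l t) * Nat.card (KK S a D l (t + u)) =
      ∑ t : V, Nat.card (KK S a D 0 t) * Nat.card (KK S a D 0 (t + u)) := by
    rw [hs, hs]
    refine shiftG _ _ fun v w => ?_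
    obtain ⟨t0, h1, h2⟩ := H.plane hl v w
    refine ⟨t0, fun t => ?_⟩
    rw [sh1 h1 t, sh1 h2 (t + u), show t + u + t0 = t + t0 + u by abel]
  have e2 : ∑ t : V, (∑ v : V, ind (PE S a D l u t v)) *
      Nat.card (KK S a D l t ⊓ KK S a D l (t + u) : Submodule (ZMod 2) V) =
      ∑ t : V, (∑ v : V, ind (PE S a D 0 u t v)) *
      Nat.card (KK S a D 0 t ⊓ KK S a D 0 (t + u) : Submodule (ZMod 2) V) := by
    rw [hr, hr]
    refine shiftG _ _ fun v w => ?_
    obtain ⟨t0, h1, h2⟩ := H.plane hl v w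
    refine ⟨t0, fun t => ?_⟩
    rw [sh2 h1 t, Submodule.mem_inf, Submodule.mem_inf, sh1 h2 t, sh1 h2 (t + u),
      show t + u + t0 = t + t0 + u by abel]
  have h0 : ∀ r ∈ R, (0 : V →ₗ[ZMod 2] ZMod 2) r = 0 := fun _ _ => rfl
  have e3 : ∀ t : V, Nat.card (KK S a D 0 t) * Nat.card (KK S a D 0 (t + u)) =
      (∑ v : V, ind (PE S a D 0 u t v)) *
      Nat.card (KK S a D 0 t ⊓ KK S a D 0 (t + u) : Submodule (ZMod 2) V) := by
    intro t
    rw [cm_iff _ _ _ (H.sup_le h0 u t)]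
    rintro v ⟨hv, t0, h1, v', hv', h2⟩
    rw [val_zero] at h1
    have h3 : S.q v t = S.q v' u := by
      rw [← h2, S.add, show t + (t0 + t) = t0 + (t + t) by abel, ss, add_zero, h1]
    obtain ⟨x, h4, h5⟩ := S.link t v u v' (by rw [S.symm t, S.symm u, h3])
    have h6 : S.q x t = S.q v t := by rw [S.symm x, ← h4, S.symm]
    have h7 : S.q x u = S.q v' u := by rw [S.symm x, ← h5, S.symm]
    have hx : x ∈ D := by
      have h8 : S.q (v' + x) u = S.z := lc rfl h7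
      have h9 := D.add_mem hv' (H.aD hu (by rw [S.symm]; exact h8))
      rwa [xxy] at h9
    have : v = (v + x) + x := by rw [xyy]
    rw [this]
    refine Submodule.add_mem_sup ⟨D.add_mem hv hx, ?_⟩ ⟨hx, ?_⟩
    · rw [val_zero]
      exact lc rfl h6
    · rw [val_zero, ← S.add, h6, h7, h3]
  have e4 : ∑ t : V, Nat.card (KK S a D l t) * Nat.card (KK S a D l (t + u)) =
      ∑ t : V, (∑ v : V, ind (PE S a D l u t v)) *
      Nat.card (KK S a D l t ⊓ KK S a D l (t + u) : Submodule (ZMod 2) V) := by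
    rw [e1, e2]
    exact Finset.sum_congr rfl fun t _ => e3 t
  have e5 := (Finset.sum_eq_sum_iff_of_le fun t _ => cm_le _ _ _ (H.sup_le hl u t)).1 e4 0
    (Finset.mem_univ _)
  rw [cm_iff _ _ _ (H.sup_le hl u 0)] at e5
  obtain ⟨w0, hw0⟩ := hu
  have h1 : PE S a D l u 0 v0 := by
    obtain ⟨t0, h1, -⟩ := H.plane' hl hv0 hv0
    refine ⟨hv0, t0, h1, w0, H.sD (Sl.co hw0), ?_⟩
    rw [add_zero, h1, val_of1 hlv, S.symm, hw0]
  obtain ⟨x, hx, y, hy, hxy⟩ := Submodule.mem_sup.1 (e5 v0 h1)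
  rw [zero_add] at hy
  have hx0 : l x = 0 := by
    by_contra hc
    have h2 := hx.2
    rw [val_of1 hc, q0] at h2
    exact H.az h2.symm
  have hy0 : l y ≠ 0 := by
    intro h2
    apply hlv
    rw [← hxy, map_add, hx0, h2, add_zero]
  refine ⟨y, ?_, hy0⟩
  rw [S.symm, hy.2, val_of1 hy0]

/-- step (2) of Theorem REL -/
theorem Hy.two [Fintype V] (H : Hy S a D R) {s w : V} (h : S.q s w = a) {v : V} (hv : v ∈ D) :
    v ∈ S.ann s ⊔ R ∨ v + w ∈ S.ann s ⊔ R := by
  by_contra hc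
  push Not at hc
  have h1 : v ∉ (S.ann s ⊔ R) ⊔ Submodule.span (ZMod 2) {w} := by
    intro h1
    obtain ⟨x, hx, y, hy, hxy⟩ := Submodule.mem_sup.1 h1
    obtain ⟨c, rfl⟩ := Submodule.mem_span_singleton.1 hy
    rcases zm c with rfl | rfl
    · rw [zero_smul, add_zero] at hxy
      exact hc.1 (hxy ▸ hx)
    · rw [one_smul] at hxy
      exact hc.2 (by rw [← hxy, xyy]; exact hx)
  obtain ⟨l, hl1, hl0⟩ := exists_functional h1
  have hR : ∀ r ∈ R, l r = 0 := fun r hr => hl0 r (Submodule.mem_sup_left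
    (Submodule.mem_sup_right hr))
  obtain ⟨w', h2, h3⟩ := H.one hR hv (by rw [hl1]; exact one_ne_zero) ⟨w, h⟩
  apply h3
  have h4 : w' + w ∈ S.ann s := rc h2 h
  have h5 : l (w' + w) = 0 := hl0 _ (Submodule.mem_sup_left (Submodule.mem_sup_left h4))
  have h6 : l w = 0 := hl0 _ (Submodule.mem_sup_right (Submodule.mem_span_singleton_self w))
  rwa [map_add, h6, add_zero] at h5

theorem Hy.two' (H : Hy S a D R) {s w : V} (h : S.q s w = a) : w ∉ S.ann s ⊔ R := by
  intro h1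
  obtain ⟨x, hx, y, hy, hxy⟩ := Submodule.mem_sup.1 h1
  have hx' : S.q s x = S.z := hx
  have h2 : S.q s y = a := by
    have : y = w + x := by rw [← hxy, add_comm x, xyy]
    rw [this]
    exact r0 h hx'
  exact H.nr (Sl.co h2) hy

end Pool.Agent.REL34
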