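import Pool.Agent.REL34.Step1

/-!
# Theorem REL, steps (3) and (4)
-/

set_option autoImplicit false
set_option linter.unusedSectionVars false

namespace Pool.Agent.REL34

open Pool.Agent.Helper58.PLine (QData zm zm_ne_zero exists_functional)
open Pool.Agent.HAS82 (ind ind_and natCard_eq card_mul card_mono)
open scoped Classical
open Finset

theorem ind_pos {p : Prop} (h : p) : ind p = 1 := if_pos h

theorem ind_neg {p : Prop} (h : ¬ p) : ind p = 0 := if_neg h

section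
variable {V : Type} [AddCommGroup V] [Module (ZMod 2) V] [Fintype V]

theorem card_two {U K : Submodule (ZMod 2) V} {w : V} (h1 : ∀ v, v ∈ K ↔ v ∈ U ∨ v + w ∈ U)
    (h2 : w ∉ U) : Nat.card K = 2 * Nat.card U := by
  have h3 : ∀ v, ind (v ∈ K) = ind (v ∈ U) + ind (v + w ∈ U) := by
    intro v
    by_cases a1 : v ∈ U
    · have a2 : v + w ∉ U := fun h => h2 ((U.add_mem_iff_right a1).1 h)
      rw [ind_pos a1, ind_neg a2, ind_pos ((h1 v).2 (Or.inl a1))]
    · by_cases a2 : v + w ∈ U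
      · rw [ind_neg a1, ind_pos a2, ind_pos ((h1 v).2 (Or.inr a2))]
      · have a3 : v ∉ K := by
          rw [h1]
          tauto
        rw [ind_neg a1, ind_neg a2, ind_neg a3]
  have h4 : ∑ v : V, ind (v + w ∈ U) = ∑ v : V, ind (v ∈ U) :=
    Fintype.sum_equiv (Equiv.addRight w) _ _ fun v => rfl
  rw [natCard_eq, natCard_eq]
  simp only [h3]
  rw [Finset.sum_add_distrib, h4, two_mul]

theorem card_half {K : Submodule (ZMod 2) V} {l : V →ₗ[ZMod 2] ZMod 2} {w : V} (hw : w ∈ K)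
    (hl : l w ≠ 0) : Nat.card K = 2 * Nat.card (K ⊓ LinearMap.ker l : Submodule (ZMod 2) V) := by
  refine card_two (w := w) (fun v => ?_) fun h => hl h.2
  constructor
  · intro hv
    by_cases h1 : l v = 0
    · exact Or.inl ⟨hv, h1⟩
    · refine Or.inr ⟨K.add_mem hv hw, ?_⟩
      show l (v + w) = 0
      rw [map_add, zm_ne_zero h1, zm_ne_zero hl, ss]
  · rintro (h | h)
    · exact h.1
    · exact (K.add_mem_iff_left hw).1 h.1

end

variable {V Q : Type} [AddCommGroup V] [Module (ZMod 2) V] [Fintype V] {S : QData V Q} {a : Q}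
  {D R : Submodule (ZMod 2) V} {l : V →ₗ[ZMod 2] ZMod 2}

/-- the elements of `D` annihilated by `t` -/
def X (S : QData V Q) (D : Submodule (ZMod 2) V) (t : V) : Submodule (ZMod 2) V := D ⊓ S.ann t

theorem mem_X {v t : V} : v ∈ X S D t ↔ v ∈ D ∧ S.q t v = S.z := Iff.rfl

theorem KK_zero (t : V) : KK S a D 0 t = X S D t := by
  ext v
  rw [mem_KK, mem_X, val_zero, S.symm]

theorem Hy.X_eq (H : Hy S a D R) {s : V} (h : Sl S a s) : X S D s = S.ann s :=
  inf_eq_right.2 fun _ hv => H.aD h hv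

/-- slots -/
theorem Hy.KK_slot (H : Hy S a D R) (hl : ∀ r ∈ R, l r = 0) {v0 : V} (hv0 : v0 ∈ D)
    (hlv : l v0 ≠ 0) {t : V} (ht : Sl S a t) :
    Nat.card (KK S a D l t) = 2 * Nat.card (X S D t ⊓ LinearMap.ker l : Submodule (ZMod 2) V) := by
  obtain ⟨w, h1, h2⟩ := H.one hl hv0 hlv ht
  have hw : w ∈ KK S a D l t := ⟨H.sD (Sl.co h1), by rw [val_of1 h2, S.symm, h1]⟩
  rw [card_half hw h2]
  have e : KK S a D l t ⊓ LinearMap.ker l = X S D t ⊓ LinearMap.ker l := by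
    ext v
    constructor
    · rintro ⟨⟨b1, b2⟩, b3⟩
      rw [val_of0 b3, S.symm] at b2
      exact ⟨⟨b1, b2⟩, b3⟩
    · rintro ⟨⟨b1, b2⟩, b3⟩
      refine ⟨⟨b1, ?_⟩, b3⟩
      rw [val_of0 b3, S.symm]
      exact b2
  rw [e]

theorem Hy.KK_non (H : Hy S a D R) {t : V} (ht : ¬ Sl S a t) :
    KK S a D l t = X S D t ⊓ LinearMap.ker l := by
  ext v
  constructor
  · rintro ⟨b1, b2⟩
    have b3 : l v = 0 := by
      by_contra hc
      rw [val_of1 hc] at b2
      exact ht (Sl.co b2)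
    rw [val_of0 b3, S.symm] at b2
    exact ⟨⟨b1, b2⟩, b3⟩
  · rintro ⟨⟨b1, b2⟩, b3⟩
    refine ⟨b1, ?_⟩
    rw [val_of0 b3, S.symm]
    exact b2

/-- `l` vanishes on the elements of `D` annihilated by `t` -/
def Van (S : QData V Q) (D : Submodule (ZMod 2) V) (l : V →ₗ[ZMod 2] ZMod 2) (t : V) : Prop :=
  ∀ v ∈ X S D t, l v = 0

theorem card_van {t : V} (h : Van S D l t) :
    Nat.card (X S D t ⊓ LinearMap.ker l : Submodule (ZMod 2) V) = Nat.card (X S D t) := by
  have e : X S D t ⊓ LinearMap.ker l = X S D t := inf_eq_left.2 fun v hv => h v hv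
  rw [e]

theorem card_nvan {t : V} (h : ¬ Van S D l t) :
    Nat.card (X S D t) = 2 * Nat.card (X S D t ⊓ LinearMap.ker l : Submodule (ZMod 2) V) := by
  unfold Van at h
  push Not at h
  obtain ⟨v, hv, h1⟩ := h
  exact card_half hv h1

/-- the square of the number of elements of `D` annihilated by `t` -/
noncomputable def g2 (S : QData V Q) (D : Submodule (ZMod 2) V) (t : V) : ℕ :=
  Nat.card (X S D t) * Nat.card (X S D t)

theorem Hy.sum_sq (H : Hy S a D R) (hl : ∀ r ∈ R, l r = 0) :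
    ∑ t : V, Nat.card (KK S a D l t) * Nat.card (KK S a D l t) = ∑ t : V, g2 S D t := by
  have hs : ∀ l' : V →ₗ[ZMod 2] ZMod 2, ∑ t : V, Nat.card (KK S a D l' t) *
      Nat.card (KK S a D l' t) = ∑ t : V, ∑ v : V, ∑ w : V,
      ind (v ∈ KK S a D l' t ∧ w ∈ KK S a D l' t) := by
    intro l'
    refine Finset.sum_congr rfl fun t _ => ?_
    rw [natCard_eq, ind_mul_sum]
  have e0 : ∑ t : V, g2 S D t = ∑ t : V, Nat.card (KK S a D 0 t) * Nat.card (KK S a D 0 t) := by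
    refine Finset.sum_congr rfl fun t _ => ?_
    rw [KK_zero]
    rfl
  rw [e0, hs, hs]
  refine shiftG _ _ fun v w => ?_
  obtain ⟨t0, h1, h2⟩ := H.plane hl v w
  refine ⟨t0, fun t => ?_⟩
  rw [sh1 h1 t, sh1 h2 t]

/-- step (3) of Theorem REL -/
theorem Hy.three (H : Hy S a D R) (hl : ∀ r ∈ R, l r = 0) {v0 : V} (hv0 : v0 ∈ D)
    (hlv : l v0 ≠ 0) : ∑ t : V, ind (¬ Sl S a t ∧ ¬ Van S D l t) * g2 S D t =
      4 * ∑ t : V, ind (Sl S a t ∧ Van S D l t) * g2 S D t := by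
  have h1 : ∀ t : V, 4 * (Nat.card (KK S a D l t) * Nat.card (KK S a D l t)) +
      3 * (ind (¬ Sl S a t ∧ ¬ Van S D l t) * g2 S D t) =
      4 * g2 S D t + 12 * (ind (Sl S a t ∧ Van S D l t) * g2 S D t) := by
    intro t
    unfold g2
    by_cases hs : Sl S a t <;> by_cases hv : Van S D l t
    · rw [ind_neg (fun h => h.1 hs), ind_pos ⟨hs, hv⟩, H.KK_slot hl hv0 hlv hs, card_van hv]
      ring
    · rw [ind_neg (fun h => h.1 hs), ind_neg (fun h => hv h.2), H.KK_slot hl hv0 hlv hs,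
        ← card_nvan hv]
      ring
    · rw [ind_neg (fun h => h.2 hv), ind_neg (fun h => hs h.1), H.KK_non hs, card_van hv]
      ring
    · rw [ind_pos ⟨hs, hv⟩, ind_neg (fun h => hs h.1), H.KK_non hs, card_nvan hv]
      ring
  have h2 := Finset.sum_congr (rfl : (Finset.univ : Finset V) = Finset.univ) fun t _ => h1 t
  rw [Finset.sum_add_distrib, Finset.sum_add_distrib, ← Finset.mul_sum, ← Finset.mul_sum,
    ← Finset.mul_sum, ← Finset.mul_sum, H.sum_sq hl] at h2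
  omega

theorem Hy.nz (H : Hy S a D R) : ¬ Sl S a 0 := by
  rintro ⟨w, hw⟩
  rw [zq] at hw
  exact H.az hw.symm

/-- every functional is the functional of a slot -/
theorem Hy.three' (H : Hy S a D R) (hl : ∀ r ∈ R, l r = 0) {v0 : V} (hv0 : v0 ∈ D)
    (hlv : l v0 ≠ 0) : ∃ t, Sl S a t ∧ Van S D l t := by
  by_contra hcon
  push Not at hcon
  have h1 := H.three hl hv0 hlv
  have h2 : ∑ t : V, ind (Sl S a t ∧ Van S D l t) * g2 S D t = 0 := by
    refine Finset.sum_eq_zero fun t _ => ?_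
    rw [ind_neg (fun h => hcon t h.1 h.2), zero_mul]
  rw [h2, mul_zero] at h1
  have h3 := (Finset.sum_eq_zero_iff.1 h1) 0 (Finset.mem_univ _)
  have h4 : ¬ Van S D l 0 := fun h => hlv (h v0 ⟨hv0, zq v0⟩)
  rw [ind_pos ⟨H.nz, h4⟩, one_mul] at h3
  have hpos : 0 < Nat.card (X S D 0) := Nat.card_pos
  unfold g2 at h3
  exact absurd h3 (Nat.mul_pos hpos hpos).ne'

/-- step (4) of Theorem REL -/
theorem Hy.four (H : Hy S a D R) {u : V} (hu : u ∈ R) : X S D u ⊔ R = D := by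
  apply le_antisymm
  · exact _root_.sup_le inf_le_left H.le
  · intro v hv
    by_contra hc
    obtain ⟨l, hl1, hl0⟩ := exists_functional hc
    have hR : ∀ r ∈ R, l r = 0 := fun r hr => hl0 r (Submodule.mem_sup_right hr)
    have hlv : l v ≠ 0 := by rw [hl1]; exact one_ne_zero
    obtain ⟨t, ht, h1⟩ := H.three' hR hv hlv
    obtain ⟨w, h2, h3⟩ := lk ht (H.sl_add ht hu)
    have h4 : S.q u w = S.z := by
      have := lc h2 h3
      rwa [xxy] at this
    have h5 : l w = 0 := hl0 w (Submodule.mem_sup_left ⟨H.sD (Sl.co h2), h4⟩)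
    have h6 : ∀ x ∈ S.ann t ⊔ R, l x = 0 := by
      intro x hx
      obtain ⟨y, hy, r, hr, rfl⟩ := Submodule.mem_sup.1 hx
      rw [map_add, hR r hr, h1 y ⟨H.aD ht hy, hy⟩, add_zero]
    rcases H.two h2 hv with h7 | h7
    · exact hlv (h6 _ h7)
    · have := h6 _ h7
      rw [map_add, h5, add_zero] at this
      exact hlv this

theorem Hy.van_R (H : Hy S a D R) (hl : ∀ r ∈ R, l r = 0) {v0 : V} (hv0 : v0 ∈ D)
    (hlv : l v0 ≠ 0) {t : V} : (¬ Sl S a t ∧ ¬ Van S D l t) ↔ t ∈ R := by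
  constructor
  · rintro ⟨h1, h2⟩
    unfold Van at h2
    push Not at h2
    obtain ⟨v, ⟨hv1, hv2⟩, h3⟩ := h2
    refine (H.rm t).2 ⟨H.aD (H.sl_l hl hv1 h3) ?_, h1⟩
    rw [S.symm]
    exact hv2
  · intro h
    refine ⟨fun hs => H.nr hs h, fun h1 => hlv ?_⟩
    have h2 : v0 ∈ X S D t ⊔ R := by rw [H.four h]; exact hv0
    obtain ⟨y, hy, r, hr, rfl⟩ := Submodule.mem_sup.1 h2
    rw [map_add, hl r hr, h1 y hy, add_zero]

end Pool.Agent.REL34
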