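import Pool.Agent.REL34.Step3

/-!
# Theorem REL, steps (4) (the sums), (5) and (6)
-/

set_option autoImplicit false
set_option linter.unusedSectionVars false

namespace Pool.Agent.REL34

open Pool.Agent.Helper58.PLine (QData zm zm_ne_zero exists_functional)
open Pool.Agent.HAS82 (ind ind_and natCard_eq card_mul card_mono)
open scoped Classical
open Finset

section
variable {V : Type} [AddCommGroup V] [Module (ZMod 2) V] [Fintype V]

instance finDual : Finite (Module.Dual (ZMod 2) V) :=
  Finite.of_injective (fun l : Module.Dual (ZMod 2) V => (l : V → ZMod 2)) DFunLike.coe_injective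

theorem sum2_eq {f g : V → V → ℕ} (h : ∀ u v, f u v ≤ g u v)
    (he : ∑ u : V, ∑ v : V, f u v = ∑ u : V, ∑ v : V, g u v) (u v : V) : f u v = g u v := by
  have h1 := (Finset.sum_eq_sum_iff_of_le fun u _ => Finset.sum_le_sum fun v _ => h u v).1 he u
    (Finset.mem_univ _)
  exact (Finset.sum_eq_sum_iff_of_le fun v _ => h u v).1 h1 v (Finset.mem_univ _)

theorem swap3 (F : V → V → V → ℕ) :
    ∑ t : V, ∑ u : V, ∑ v : V, F t u v = ∑ u : V, ∑ v : V, ∑ t : V, F t u v := by
  rw [Finset.sum_comm]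
  refine Finset.sum_congr rfl fun u _ => ?_
  rw [Finset.sum_comm]

theorem eq_of_card {A B : Submodule (ZMod 2) V} (h : A ≤ B) (hc : Nat.card B ≤ Nat.card A) :
    A = B := by
  apply SetLike.coe_injective
  exact Set.eq_of_subset_of_ncard_le h hc (Set.toFinite _)

theorem card_pos (K : Submodule (ZMod 2) V) : 0 < Nat.card K := Nat.card_pos

end

variable {V Q : Type} [AddCommGroup V] [Module (ZMod 2) V] [Fintype V] {S : QData V Q} {a : Q}
  {D R : Submodule (ZMod 2) V} {l : V →ₗ[ZMod 2] ZMod 2} {q : ℕ}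

theorem Hy.exq (H : Hy S a D R) : ∃ q, Nat.card D = q * Nat.card R := by
  have h : Nat.card R.toAddSubgroup ∣ Nat.card D.toAddSubgroup := AddSubgroup.card_dvd_of_le H.le
  obtain ⟨q, hq⟩ := h
  exact ⟨q, by rw [mul_comm]; exact hq⟩

theorem Hy.U_le (H : Hy S a D R) {s : V} (hs : Sl S a s) : S.ann s ⊔ R ≤ D :=
  _root_.sup_le (fun _ h => H.aD hs h) H.le

theorem Hy.card_U (H : Hy S a D R) {s : V} (hs : Sl S a s) :
    Nat.card D = 2 * Nat.card (S.ann s ⊔ R : Submodule (ZMod 2) V) := by
  obtain ⟨w, hw⟩ := hs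
  refine card_two (w := w) (fun v => ⟨fun hv => H.two hw hv, ?_⟩) (H.two' hw)
  rintro (h | h)
  · exact H.U_le ⟨w, hw⟩ h
  · exact (D.add_mem_iff_left (H.sD (Sl.co hw))).1 (H.U_le ⟨w, hw⟩ h)

/-- the number of elements of `R` annihilated by `t` -/
noncomputable def k (S : QData V Q) (R : Submodule (ZMod 2) V) (t : V) : ℕ :=
  Nat.card (S.ann t ⊓ R : Submodule (ZMod 2) V)

theorem Hy.card_s (H : Hy S a D R) (hq : Nat.card D = q * Nat.card R) {s : V} (hs : Sl S a s) :
    2 * Nat.card (S.ann s) = q * k S R s := by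
  have h1 := card_mul (S.ann s) R
  have h2 := H.card_U hs
  have h3 := card_pos R
  refine Nat.eq_of_mul_eq_mul_right h3 ?_
  unfold k
  calc 2 * Nat.card (S.ann s) * Nat.card R
      = 2 * (Nat.card (S.ann s) * Nat.card R) := by ring
    _ = (2 * Nat.card (S.ann s ⊔ R : Submodule (ZMod 2) V)) *
        Nat.card (S.ann s ⊓ R : Submodule (ZMod 2) V) := by rw [h1]; ring
    _ = q * Nat.card (S.ann s ⊓ R : Submodule (ZMod 2) V) * Nat.card R := by
        rw [← h2, hq]; ring

theorem Hy.X_inf (H : Hy S a D R) (u : V) : X S D u ⊓ R = S.ann u ⊓ R := by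
  ext v
  constructor
  · rintro ⟨⟨-, h1⟩, h2⟩
    exact ⟨h1, h2⟩
  · rintro ⟨h1, h2⟩
    exact ⟨⟨H.rD h2, h1⟩, h2⟩

theorem Hy.card_r (H : Hy S a D R) (hq : Nat.card D = q * Nat.card R) {u : V} (hu : u ∈ R) :
    Nat.card (X S D u) = q * k S R u := by
  have h1 := card_mul (X S D u) R
  rw [H.four hu, H.X_inf, hq] at h1
  refine Nat.eq_of_mul_eq_mul_right (card_pos R) ?_
  unfold k
  rw [h1]
  ring

theorem Hy.qpos (H : Hy S a D R) (hq : Nat.card D = q * Nat.card R) : 0 < q := by
  have h1 := card_pos D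
  rw [hq] at h1
  exact Nat.pos_of_mul_pos_right h1

/-- (E) summed over all functionals -/
theorem Hy.sumE (H : Hy S a D R) (hq : Nat.card D = q * Nat.card R) :
    q * ∑ t : V, ind (t ∈ R) * g2 S D t =
      4 * ∑ t : V, ind (Sl S a t) * g2 S D t + ∑ t : V, ind (t ∈ R) * g2 S D t := by
  have := Fintype.ofFinite (Module.Dual (ZMod 2) V)
  set A := ∑ t : V, ind (t ∈ R) * g2 S D t with hA
  set B := ∑ t : V, ind (Sl S a t) * g2 S D t with hB
  set δ := Nat.card D.dualAnnihilator with hδ
  have hδp : 0 < δ := Nat.card_pos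
  have hR : Nat.card R.dualAnnihilator = q * δ := by
    have h1 := card_dA R
    rw [← card_dA D, hq] at h1
    refine Nat.eq_of_mul_eq_mul_right (card_pos R) ?_
    rw [h1]
    ring
  set N := ∑ l : Module.Dual (ZMod 2) V, ind (l ∈ R.dualAnnihilator ∧ l ∉ D.dualAnnihilator)
    with hN
  have hle : D.dualAnnihilator ≤ R.dualAnnihilator := Submodule.dualAnnihilator_anti H.le
  have hNe : N + δ = q * δ := by
    rw [← hR, hN, hδ, natCard_eq, natCard_eq, ← Finset.sum_add_distrib]
    refine Finset.sum_congr rfl fun l _ => ?_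
    by_cases h1 : l ∈ D.dualAnnihilator
    · rw [ind_neg (fun h => h.2 h1), ind_pos h1, ind_pos (hle h1)]
    · by_cases h2 : l ∈ R.dualAnnihilator
      · rw [ind_pos ⟨h2, h1⟩, ind_neg h1, ind_pos h2]
      · rw [ind_neg (fun h => h2 h.1), ind_neg h1, ind_neg h2]
  have h1 : ∀ l : Module.Dual (ZMod 2) V,
      ind (l ∈ R.dualAnnihilator ∧ l ∉ D.dualAnnihilator) * A =
      4 * ∑ t : V, ind (l ∈ R.dualAnnihilator ∧ l ∉ D.dualAnnihilator) *
        ind (Sl S a t ∧ Van S D l t) * g2 S D t := by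
    intro l
    by_cases h2 : l ∈ R.dualAnnihilator ∧ l ∉ D.dualAnnihilator
    · have hl : ∀ r ∈ R, l r = 0 := (Submodule.mem_dualAnnihilator l).1 h2.1
      have h3 := h2.2
      rw [Submodule.mem_dualAnnihilator] at h3
      push Not at h3
      obtain ⟨v0, hv0, hlv⟩ := h3
      have h4 := H.three hl hv0 hlv
      rw [ind_pos h2, one_mul, hA]
      simp only [one_mul]
      rw [← h4]
      refine Finset.sum_congr rfl fun t _ => ?_
      rw [propext (H.van_R hl hv0 hlv)]
    · rw [ind_neg h2]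
      simp
  have h2 : ∀ t : V, ∑ l : Module.Dual (ZMod 2) V,
      ind (l ∈ R.dualAnnihilator ∧ l ∉ D.dualAnnihilator) * ind (Sl S a t ∧ Van S D l t) =
      ind (Sl S a t) * δ := by
    intro t
    by_cases hs : Sl S a t
    · have h3 : Nat.card (S.ann t ⊔ R : Submodule (ZMod 2) V).dualAnnihilator = 2 * δ := by
        have h1 := card_dA (S.ann t ⊔ R : Submodule (ZMod 2) V)
        rw [← card_dA D, H.card_U hs] at h1
        refine Nat.eq_of_mul_eq_mul_right (card_pos (S.ann t ⊔ R)) ?_
        rw [h1]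
        ring
      have h4 : ∑ l : Module.Dual (ZMod 2) V,
          ind (l ∈ R.dualAnnihilator ∧ l ∉ D.dualAnnihilator) * ind (Sl S a t ∧ Van S D l t) + δ =
          2 * δ := by
        rw [← h3]
        conv_lhs => rw [hδ]
        rw [natCard_eq, natCard_eq, ← Finset.sum_add_distrib]
        refine Finset.sum_congr rfl fun l _ => ?_
        have h5 : l ∈ (S.ann t ⊔ R : Submodule (ZMod 2) V).dualAnnihilator ↔
            l ∈ R.dualAnnihilator ∧ Van S D l t := by
          rw [Submodule.dualAnnihilator_sup_eq, Submodule.mem_inf, and_comm]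
          refine and_congr_right fun _ => ?_
          rw [Submodule.mem_dualAnnihilator, ← H.X_eq hs]
          rfl
        rw [propext h5]
        by_cases a1 : l ∈ D.dualAnnihilator
        · have a2 : Van S D l t := fun v hv => (Submodule.mem_dualAnnihilator l).1 a1 v hv.1
          rw [ind_neg (fun h : l ∈ R.dualAnnihilator ∧ l ∉ D.dualAnnihilator => h.2 a1),
            ind_pos a1,
            ind_pos (show l ∈ R.dualAnnihilator ∧ Van S D l t from ⟨hle a1, a2⟩)]
          simp
        · by_cases a2 : l ∈ R.dualAnnihilator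
          · by_cases a3 : Van S D l t
            · rw [ind_pos ⟨a2, a1⟩, ind_pos ⟨hs, a3⟩, ind_neg a1, ind_pos ⟨a2, a3⟩]
            · rw [ind_neg a1, ind_neg (fun h : Sl S a t ∧ Van S D l t => a3 h.2),
                ind_neg (fun h : l ∈ R.dualAnnihilator ∧ Van S D l t => a3 h.2)]
              simp
          · rw [ind_neg (fun h : l ∈ R.dualAnnihilator ∧ l ∉ D.dualAnnihilator => a2 h.1),
              ind_neg a1, ind_neg (fun h : l ∈ R.dualAnnihilator ∧ Van S D l t => a2 h.1)]
            simp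
      rw [ind_pos hs, one_mul]
      omega
    · rw [ind_neg hs, zero_mul]
      refine Finset.sum_eq_zero fun l _ => ?_
      rw [ind_neg (fun h : Sl S a t ∧ Van S D l t => hs h.1), mul_zero]
  have h3 : N * A = 4 * (δ * B) := by
    have e : ∑ l : Module.Dual (ZMod 2) V,
        ind (l ∈ R.dualAnnihilator ∧ l ∉ D.dualAnnihilator) * A =
        4 * ∑ l : Module.Dual (ZMod 2) V, ∑ t : V,
        ind (l ∈ R.dualAnnihilator ∧ l ∉ D.dualAnnihilator) *
        ind (Sl S a t ∧ Van S D l t) * g2 S D t := by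
      rw [Finset.mul_sum]
      exact Finset.sum_congr rfl fun l _ => h1 l
    have e2 : ∑ t : V, ∑ l : Module.Dual (ZMod 2) V,
        ind (l ∈ R.dualAnnihilator ∧ l ∉ D.dualAnnihilator) *
        ind (Sl S a t ∧ Van S D l t) * g2 S D t = δ * B := by
      rw [hB, Finset.mul_sum]
      refine Finset.sum_congr rfl fun t _ => ?_
      rw [← Finset.sum_mul, h2 t]
      ring
    rw [hN, Finset.sum_mul, e, Finset.sum_comm, e2]
  have h4 : (N + δ) * A = q * δ * A := by rw [hNe]
  refine Nat.eq_of_mul_eq_mul_left hδp ?_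
  calc δ * (q * A) = q * δ * A := by ring
    _ = N * A + δ * A := by rw [← h4]; ring
    _ = δ * (4 * B + A) := by rw [h3]; ring

/-- the identity `q E = Z + E` -/
theorem Hy.EZ (H : Hy S a D R) (hq : Nat.card D = q * Nat.card R) :
    q * ∑ t : V, ind (t ∈ R) * (k S R t * k S R t) =
      ∑ t : V, ind (Sl S a t) * (k S R t * k S R t) +
      ∑ t : V, ind (t ∈ R) * (k S R t * k S R t) := by
  have h1 := H.sumE hq
  have h2 : ∑ t : V, ind (t ∈ R) * g2 S D t =
      q * q * ∑ t : V, ind (t ∈ R) * (k S R t * k S R t) := by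
    rw [Finset.mul_sum]
    refine Finset.sum_congr rfl fun t _ => ?_
    by_cases ht : t ∈ R
    · rw [ind_pos ht, g2, H.card_r hq ht]
      ring
    · rw [ind_neg ht]
      ring
  have h3 : 4 * ∑ t : V, ind (Sl S a t) * g2 S D t =
      q * q * ∑ t : V, ind (Sl S a t) * (k S R t * k S R t) := by
    rw [Finset.mul_sum, Finset.mul_sum]
    refine Finset.sum_congr rfl fun t _ => ?_
    by_cases ht : Sl S a t
    · rw [ind_pos ht, g2, H.X_eq ht, one_mul, one_mul]
      have h4 := H.card_s hq ht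
      calc 4 * (Nat.card (S.ann t) * Nat.card (S.ann t))
          = (2 * Nat.card (S.ann t)) * (2 * Nat.card (S.ann t)) := by ring
        _ = q * q * (k S R t * k S R t) := by rw [h4]; ring
    · rw [ind_neg ht]
      ring
  rw [h2, h3] at h1
  have hp := H.qpos hq
  refine Nat.eq_of_mul_eq_mul_left (Nat.mul_pos hp hp) ?_
  calc q * q * (q * ∑ t : V, ind (t ∈ R) * (k S R t * k S R t))
      = q * (q * q * ∑ t : V, ind (t ∈ R) * (k S R t * k S R t)) := by ring
    _ = _ := by rw [h1]; ring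

end Pool.Agent.REL34
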