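import Pool.Agent.REL34.Step5

/-!
# Theorem REL, steps (5) and (6)
-/

set_option autoImplicit false
set_option linter.unusedSectionVars false
set_option linter.unusedVariables false

namespace Pool.Agent.REL34

open Pool.Agent.Helper58.PLine (QData zm zm_ne_zero exists_functional)
open Pool.Agent.HAS82 (ind ind_and natCard_eq card_mul card_mono)
open scoped Classical
open Finset

variable {V Q : Type} [AddCommGroup V] [Module (ZMod 2) V] [Fintype V] {S : QData V Q} {a : Q}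
  {D R : Submodule (ZMod 2) V} {l : V →ₗ[ZMod 2] ZMod 2} {q : ℕ}

theorem k_eq (t : V) : k S R t = ∑ u : V, ind (S.q t u = S.z ∧ u ∈ R) := by
  unfold k
  rw [natCard_eq]
  rfl

/-- the elements of `D` annihilated by `u` and `v` -/
def W (S : QData V Q) (D : Submodule (ZMod 2) V) (u v : V) : Submodule (ZMod 2) V :=
  D ⊓ (S.ann u ⊓ S.ann v)

theorem mem_W {u v t : V} : t ∈ W S D u v ↔ t ∈ D ∧ S.q u t = S.z ∧ S.q v t = S.z := Iff.rfl

theorem sum_W (K : Submodule (ZMod 2) V) :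
    ∑ u : V, ∑ v : V, ind (u ∈ R ∧ v ∈ R) * Nat.card (W S K u v) =
    ∑ t : V, ind (t ∈ K) * (k S R t * k S R t) := by
  have h1 : ∀ t : V, ind (t ∈ K) * (k S R t * k S R t) =
      ∑ u : V, ∑ v : V, ind (t ∈ K) * ind ((S.q t u = S.z ∧ u ∈ R) ∧ (S.q t v = S.z ∧ v ∈ R)) := by
    intro t
    rw [k_eq, ind_mul_sum, Finset.mul_sum]
    refine Finset.sum_congr rfl fun u _ => ?_
    rw [Finset.mul_sum]
  simp only [h1]
  rw [swap3]
  refine Finset.sum_congr rfl fun u _ => Finset.sum_congr rfl fun v _ => ?_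
  rw [natCard_eq, Finset.mul_sum]
  refine Finset.sum_congr rfl fun t _ => ?_
  rw [← ind_and, ← ind_and]
  congr 1
  apply propext
  rw [mem_W, S.symm u t, S.symm v t]
  tauto

theorem Hy.W_inf (H : Hy S a D R) (u v : V) : W S D u v ⊓ R = W S R u v := by
  ext t
  constructor
  · rintro ⟨⟨-, h1⟩, h2⟩
    exact ⟨h2, h1⟩
  · rintro ⟨h1, h2⟩
    exact ⟨⟨H.rD h1, h2⟩, h1⟩

theorem Hy.ind_D (H : Hy S a D R) (t : V) : ind (t ∈ D) = ind (Sl S a t) + ind (t ∈ R) := by
  by_cases h1 : Sl S a t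
  · rw [ind_pos h1, ind_pos (H.sD h1), ind_neg (H.nr h1)]
  · by_cases h2 : t ∈ R
    · rw [ind_pos h2, ind_pos (H.rD h2), ind_neg h1]
    · have h3 : t ∉ D := fun h => h1 (H.sl_of h h2)
      rw [ind_neg h1, ind_neg h2, ind_neg h3]

/-- step (5) of Theorem REL -/
theorem Hy.five (H : Hy S a D R) {u v : V} (hu : u ∈ R) (hv : v ∈ R) : W S D u v ⊔ R = D := by
  obtain ⟨q, hq⟩ := H.exq
  have hle : ∀ u v : V, W S D u v ⊔ R ≤ D := fun u v => _root_.sup_le inf_le_left H.le
  have h1 : ∀ u v : V, Nat.card (W S D u v) ≤ q * Nat.card (W S R u v) := by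
    intro u v
    have h2 := card_mul (W S D u v) R
    rw [H.W_inf] at h2
    refine Nat.le_of_mul_le_mul_right ?_ (card_pos R)
    calc Nat.card (W S D u v) * Nat.card R
        ≤ Nat.card D * Nat.card (W S R u v) := by
          rw [h2]
          exact Nat.mul_le_mul_right _ (card_mono (hle u v))
      _ = q * Nat.card (W S R u v) * Nat.card R := by rw [hq]; ring
  have h2 : ∑ u : V, ∑ v : V, ind (u ∈ R ∧ v ∈ R) * Nat.card (W S D u v) =
      ∑ u : V, ∑ v : V, ind (u ∈ R ∧ v ∈ R) * (q * Nat.card (W S R u v)) := by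
    have h3 : ∑ u : V, ∑ v : V, ind (u ∈ R ∧ v ∈ R) * (q * Nat.card (W S R u v)) =
        q * ∑ u : V, ∑ v : V, ind (u ∈ R ∧ v ∈ R) * Nat.card (W S R u v) := by
      rw [Finset.mul_sum]
      refine Finset.sum_congr rfl fun u _ => ?_
      rw [Finset.mul_sum]
      refine Finset.sum_congr rfl fun v _ => ?_
      ring
    rw [h3, sum_W, sum_W, H.EZ hq, ← Finset.sum_add_distrib]
    refine Finset.sum_congr rfl fun t _ => ?_
    rw [H.ind_D]
    ring
  have h3 := sum2_eq (fun u v => Nat.mul_le_mul_left _ (h1 u v)) h2 u v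
  rw [ind_pos ⟨hu, hv⟩, one_mul, one_mul] at h3
  apply eq_of_card (hle u v)
  have h4 := card_mul (W S D u v) R
  rw [H.W_inf, h3] at h4
  refine Nat.le_of_mul_le_mul_right ?_ (card_pos (W S R u v))
  rw [← h4, hq]
  exact le_of_eq (by ring)

/-- the number of slots annihilated by `v` -/
noncomputable def sg (S : QData V Q) (a : Q) (v : V) : ℕ :=
  ∑ s : V, ind (Sl S a s ∧ S.q s v = S.z)

theorem Hy.sg_add (H : Hy S a D R) (v : V) : sg S a v + k S R v = Nat.card (X S D v) := by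
  rw [k_eq, natCard_eq, sg, ← Finset.sum_add_distrib]
  refine Finset.sum_congr rfl fun s _ => ?_
  have h1 := H.ind_D s
  have h2 : ind (Sl S a s ∧ S.q s v = S.z) = ind (Sl S a s) * ind (S.q v s = S.z) := by
    rw [← ind_and, S.symm]
  have h3 : ind (S.q v s = S.z ∧ s ∈ R) = ind (s ∈ R) * ind (S.q v s = S.z) := by
    rw [← ind_and, and_comm]
  have h4 : ind (s ∈ X S D v) = ind (s ∈ D) * ind (S.q v s = S.z) := by
    rw [← ind_and]
    rfl
  rw [h2, h3, h4, h1]
  ring

theorem sum_T (K : Submodule (ZMod 2) V) :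
    ∑ s : V, ∑ u : V, ind (Sl S a s ∧ u ∈ R) *
      Nat.card (S.ann s ⊓ S.ann u ⊓ K : Submodule (ZMod 2) V) =
    ∑ v : V, ind (v ∈ K) * (sg S a v * k S R v) := by
  have h1 : ∀ v : V, ind (v ∈ K) * (sg S a v * k S R v) =
      ∑ s : V, ∑ u : V, ind (v ∈ K) *
        ind ((Sl S a s ∧ S.q s v = S.z) ∧ (S.q v u = S.z ∧ u ∈ R)) := by
    intro t
    rw [k_eq, sg, ind_mul_sum, Finset.mul_sum]
    refine Finset.sum_congr rfl fun u _ => ?_
    rw [Finset.mul_sum]
  simp only [h1]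
  rw [swap3]
  refine Finset.sum_congr rfl fun s _ => Finset.sum_congr rfl fun u _ => ?_
  rw [natCard_eq, Finset.mul_sum]
  refine Finset.sum_congr rfl fun t _ => ?_
  rw [← ind_and, ← ind_and]
  congr 1
  apply propext
  have h2 : t ∈ S.ann s ⊓ S.ann u ⊓ K ↔ (S.q s t = S.z ∧ S.q t u = S.z) ∧ t ∈ K := by
    rw [S.symm t u]
    rfl
  rw [h2]
  tauto

/-- step (6) of Theorem REL -/
theorem Hy.six (H : Hy S a D R) {s u : V} (hs : Sl S a s) (hu : u ∈ R) :
    S.ann s ⊓ S.ann u ⊔ R = S.ann s ⊔ R := by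
  obtain ⟨q, hq⟩ := H.exq
  have hle : ∀ s u : V, S.ann s ⊓ S.ann u ⊔ R ≤ S.ann s ⊔ R :=
    fun s u => sup_le_sup_right inf_le_left _
  have h1 : ∀ s u : V, ind (Sl S a s ∧ u ∈ R) * (2 * Nat.card (S.ann s ⊓ S.ann u ⊓ ⊤ :
      Submodule (ZMod 2) V)) ≤ ind (Sl S a s ∧ u ∈ R) * (q * Nat.card (S.ann s ⊓ S.ann u ⊓ R :
      Submodule (ZMod 2) V)) := by
    intro s u
    by_cases h : Sl S a s ∧ u ∈ R
    · rw [ind_pos h, one_mul, one_mul, inf_top_eq]
      have h2 := card_mul (S.ann s ⊓ S.ann u) R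
      refine Nat.le_of_mul_le_mul_right ?_ (card_pos R)
      calc 2 * Nat.card (S.ann s ⊓ S.ann u : Submodule (ZMod 2) V) * Nat.card R
          = 2 * (Nat.card (S.ann s ⊓ S.ann u : Submodule (ZMod 2) V) * Nat.card R) := by ring
        _ ≤ 2 * (Nat.card (S.ann s ⊔ R : Submodule (ZMod 2) V) *
            Nat.card (S.ann s ⊓ S.ann u ⊓ R : Submodule (ZMod 2) V)) := by
            rw [h2]
            exact Nat.mul_le_mul_left _ (Nat.mul_le_mul_right _ (card_mono (hle s u)))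
        _ = (2 * Nat.card (S.ann s ⊔ R : Submodule (ZMod 2) V)) *
            Nat.card (S.ann s ⊓ S.ann u ⊓ R : Submodule (ZMod 2) V) := by ring
        _ = _ := by rw [← H.card_U h.1, hq]; ring
    · rw [ind_neg h, zero_mul, zero_mul]
  set E := ∑ t : V, ind (t ∈ R) * (k S R t * k S R t) with hE
  set Z := ∑ t : V, ind (Sl S a t) * (k S R t * k S R t) with hZ
  set TA := ∑ v : V, ind (Sl S a v) * (sg S a v * k S R v) with hTA
  set TB := ∑ v : V, ind (v ∈ R) * (sg S a v * k S R v) with hTB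
  have e1 : q * E = Z + E := H.EZ hq
  have e2 : 2 * TA + 2 * Z = q * Z := by
    rw [hTA, hZ, Finset.mul_sum, Finset.mul_sum, Finset.mul_sum, ← Finset.sum_add_distrib]
    refine Finset.sum_congr rfl fun v _ => ?_
    by_cases hv : Sl S a v
    · have a1 := H.sg_add v
      have a2 := H.card_s hq hv
      rw [H.X_eq hv] at a1
      rw [← a1] at a2
      rw [ind_pos hv]
      calc 2 * (1 * (sg S a v * k S R v)) + 2 * (1 * (k S R v * k S R v))
          = (2 * (sg S a v + k S R v)) * k S R v := by ring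
        _ = _ := by rw [a2]; ring
    · rw [ind_neg hv]
      ring
  have e3 : TB + E = q * E := by
    rw [hTB, hE, Finset.mul_sum, ← Finset.sum_add_distrib]
    refine Finset.sum_congr rfl fun v _ => ?_
    by_cases hv : v ∈ R
    · have a1 := H.sg_add v
      rw [H.card_r hq hv] at a1
      rw [ind_pos hv]
      calc 1 * (sg S a v * k S R v) + 1 * (k S R v * k S R v)
          = (sg S a v + k S R v) * k S R v := by ring
        _ = _ := by rw [a1]; ring
    · rw [ind_neg hv]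
      ring
  have e4 : ∑ v : V, ind (v ∈ (⊤ : Submodule (ZMod 2) V)) * (sg S a v * k S R v) = TA + TB := by
    rw [hTA, hTB, ← Finset.sum_add_distrib]
    refine Finset.sum_congr rfl fun v _ => ?_
    rw [ind_pos Submodule.mem_top, ← add_mul, ← H.ind_D]
    by_cases hv : v ∈ D
    · rw [ind_pos hv]
    · rw [ind_neg hv]
      have : sg S a v = 0 := by
        rw [sg]
        refine Finset.sum_eq_zero fun s _ => ind_neg fun h => hv (H.aD h.1 h.2)
      rw [this]
      ring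
  have e5 : ∑ s : V, ∑ u : V, ind (Sl S a s ∧ u ∈ R) * (2 * Nat.card (S.ann s ⊓ S.ann u ⊓ ⊤ :
      Submodule (ZMod 2) V)) = 2 * (TA + TB) := by
    rw [← e4, ← sum_T, Finset.mul_sum]
    refine Finset.sum_congr rfl fun s _ => ?_
    rw [Finset.mul_sum]
    refine Finset.sum_congr rfl fun u _ => ?_
    ring
  have e6 : ∑ s : V, ∑ u : V, ind (Sl S a s ∧ u ∈ R) * (q * Nat.card (S.ann s ⊓ S.ann u ⊓ R :
      Submodule (ZMod 2) V)) = q * TB := by
    rw [hTB, ← sum_T, Finset.mul_sum]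
    refine Finset.sum_congr rfl fun s _ => ?_
    rw [Finset.mul_sum]
    refine Finset.sum_congr rfl fun u _ => ?_
    ring
  have e7 : 2 * (TA + TB) = q * TB := by
    have b1 : TB = Z := by omega
    rw [b1] at e3 ⊢
    have b2 : 2 * TA + 2 * Z = q * Z := e2
    rw [← b2]
    ring
  have h3 := sum2_eq h1 (by rw [e5, e6, e7]) s u
  rw [ind_pos ⟨hs, hu⟩, one_mul, one_mul, inf_top_eq] at h3
  apply eq_of_card (hle s u)
  have h4 := card_mul (S.ann s ⊓ S.ann u) R
  have h5 := card_pos (S.ann s ⊓ S.ann u ⊓ R)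
  refine Nat.le_of_mul_le_mul_right (le_of_eq ?_) h5
  rw [← h4]
  have h6 := H.card_U hs
  have h7 : 2 * (Nat.card (S.ann s ⊔ R : Submodule (ZMod 2) V) *
      Nat.card (S.ann s ⊓ S.ann u ⊓ R : Submodule (ZMod 2) V)) =
      2 * (Nat.card (S.ann s ⊓ S.ann u : Submodule (ZMod 2) V) * Nat.card R) := by
    calc 2 * (Nat.card (S.ann s ⊔ R : Submodule (ZMod 2) V) *
        Nat.card (S.ann s ⊓ S.ann u ⊓ R : Submodule (ZMod 2) V))
        = (2 * Nat.card (S.ann s ⊔ R : Submodule (ZMod 2) V)) *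
        Nat.card (S.ann s ⊓ S.ann u ⊓ R : Submodule (ZMod 2) V) := by ring
      _ = q * Nat.card (S.ann s ⊓ S.ann u ⊓ R : Submodule (ZMod 2) V) * Nat.card R := by
        rw [← h6, hq]; ring
      _ = _ := by rw [← h3]; ring
  omega

end Pool.Agent.REL34
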